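import Pool.Agent.P.MP_e86632_nt.Lex.Trunc

/-! The explicit determination of `f*`. -/

namespace Pool.Agent.Results.MP_e86632_nt.Explicit

open Pool.Agent.P.MP_e86632_nt

/-- `1 - f*` is the upper envelope, over all finite binary words `w`, of the explicit concave
polygonal curves `x ↦ inf_l (V l w - l x)`; the words of length at most `n` give `f*` up to an
error `(p_1 ⋯ p_n) ^ (-1/2)`. -/
theorem result (x : ℝ) (hx0 : 0 < x) (hx1 : x < 1) :
    fstar x = 1 - sSup {y : ℝ | ∃ w : List Bool, ∀ l : ℝ, 0 ≤ l → l * x + y ≤ Lex.V l w} ∧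
      ∀ (n : ℕ) (ε : ℝ), 0 < ε → 1 ≤ ε ^ 2 * ∏ k ∈ Finset.range n, (Lex.pr k : ℝ) →
        1 - Lex.env n (x - ε) - ε ≤ fstar x ∧ fstar x ≤ 1 - Lex.env n x := by
  rw [fstar_eq hx0.le hx1]
  refine ⟨by rw [Lex.G_eq hx0 hx1], fun n ε h1 h2 => ⟨?_, ?_⟩⟩
  · linarith [Lex.G_le_env n hx1 h1 h2]
  · linarith [Lex.env_le_G n hx1]

end Pool.Agent.Results.MP_e86632_nt.Explicit
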