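import Pool.Agent.P.MP_e86632_nt.Explicit

/-! An exact formula for `f*` with an explicit rate of convergence. -/

namespace Pool.Agent.Results.MP_e86632_nt.Formula

open Pool.Agent.P.MP_e86632_nt

/-- `f*(x)` is the infimum over all moduli `q` of the values `F q x` of finite problems on `ZMod q`,
and `F q` approximates `f*` with error `1 / (P + 1)` once all primes up to `P` divide `q`. -/
theorem result (x : ℝ) (hx0 : 0 < x) (hx1 : x < 1) :
    fstar x = ⨅ q : ℕ+, F q x ∧
      ∀ q P : ℕ+, (∀ p : ℕ, p.Prime → p ≤ (P : ℕ) → p ∣ (q : ℕ)) →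
        F q (x - 1 / (((P : ℕ) : ℝ) + 1)) - 1 / (((P : ℕ) : ℝ) + 1) ≤ fstar x ∧ fstar x ≤ F q x := by
  refine ⟨by rw [fstar_eq hx0.le hx1, iInf_F hx1.le], fun q P h => ⟨?_, ?_⟩⟩
  · have h0 : (0 : ℝ) < 1 / (((P : ℕ) : ℝ) + 1) := by positivity
    rw [fstar_eq hx0.le hx1, F_eq q (by linarith)]
    have := G_effective q.pos P.pos (fun p hp hd => not_le.1 fun k => hd (h p hp k)) hx1.le
    linarith
  · rw [fstar_eq hx0.le hx1, F_eq q hx1.le]
    linarith [Gq_le_G q.pos hx1.le]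

end Pool.Agent.Results.MP_e86632_nt.Formula
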